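import Pool.Agent.Work.MP_c9932b_sb.Interface

/-!
# Block PACK: packing of tuples into digits of equal size
-/

set_option autoImplicit false

open Finset

namespace Pool.SBM.helper23

section horner

/-- Horner value of a list of digits -/
def hval {R : Type} [CommRing R] (b : R) : List R → R
  | [] => 0
  | r :: L => r + b * hval b L

lemma hval_nonneg {R : Type} [CommRing R] [LinearOrder R] [IsStrictOrderedRing R] {b : R}
    (hb : 0 ≤ b) : ∀ L : List R, (∀ r ∈ L, 0 ≤ r) → 0 ≤ hval b L := by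
  intro L
  induction L with
  | nil => intro _; exact le_refl _
  | cons r L ih =>
    intro h
    have h1 := h r (by simp)
    have h2 := ih (fun r hr => h r (by simp [hr]))
    exact add_nonneg h1 (mul_nonneg hb h2)

/-- Horner term -/
def hor {n : ℕ} : List (Fin n) → Tm
  | [] => .zero
  | j :: L => .add (.var (4 + j)) (.mul (.var 3) (hor L))

lemma hor_eval {R : Type} [CommRing R] {n : ℕ} (v : ℕ → R) (a : Fin n → R)
    (ha : ∀ j : Fin n, v (4 + j) = a j) :
    ∀ L : List (Fin n), (hor L).eval v = hval (v 3) (L.map a) := by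
  intro L
  induction L with
  | nil => rfl
  | cons j L ih => simp [hor, hval, ih, ha]

/-- continuants of terms -/
def kpT : List Tm → Tm × Tm
  | [] => (.one, .zero)
  | t :: L => (.add (.mul t (kpT L).1) (kpT L).2, (kpT L).1)

lemma kpT_eval {R : Type} [CommRing R] (v : ℕ → R) :
    ∀ L : List Tm, kp (L.map (Tm.eval v)) = ((kpT L).1.eval v, (kpT L).2.eval v) := by
  intro L
  induction L with
  | nil => rfl
  | cons t L ih => simp [kpT, kp, ih]

lemma digits (hDIV : Stmt_DIV) {R : Type} [CommRing R] [LinearOrder R] [IsStrictOrderedRing R]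
    (hR : IDelta0 R) {b : R} (hb : 1 ≤ b) :
    ∀ (N : ℕ) (w : R), 0 ≤ w → w < b ^ N →
      ∃ f : Fin N → R, (∀ k, 0 ≤ f k ∧ f k < b) ∧ hval b (List.ofFn f) = w := by
  intro N
  induction N with
  | zero =>
    intro w hw hlt
    refine ⟨fun k => k.elim0, fun k => k.elim0, ?_⟩
    have h0 : w = 0 := by
      by_contra hne
      have hpos : 0 < w := lt_of_le_of_ne hw (Ne.symm hne)
      have := hR.disc w hpos
      simp at hlt
      linarith
    simp [hval, h0]
  | succ N ih =>
    intro w hw hlt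
    obtain ⟨q, r, hq, hqw, hr, hrb, hwe⟩ := hDIV R hR w b hw (by linarith)
    have hqlt : q < b ^ N := by
      by_contra hcon
      push Not at hcon
      have : b * b ^ N ≤ b * q := mul_le_mul_of_nonneg_left hcon (by linarith)
      rw [pow_succ] at hlt
      nlinarith
    obtain ⟨f, hf, hfw⟩ := ih q hq hqlt
    refine ⟨Fin.cons r f, ?_, ?_⟩
    · intro k
      refine Fin.cases ?_ ?_ k
      · exact ⟨by simpa using hr, by simpa using hrb⟩
      · intro k; simpa using hf k
    · simp only [List.ofFn_succ, Fin.cons_zero, Fin.cons_succ, hval]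
      rw [hfw, hwe]; ring

end horner

section catLemmas

variable {R : Type} [Zero R] {n l : ℕ} (x : Fin n → R) (z : Fin l → R)

lemma cat_lt {i : ℕ} (h : i < n) : cat x z i = x ⟨i, h⟩ := by simp [cat, h]

lemma cat_mid {i : ℕ} (h : n ≤ i) (h' : i - n < l) : cat x z i = z ⟨i - n, h'⟩ := by
  simp [cat, ev, h', not_lt.mpr h]

lemma cat_ge {i : ℕ} (h : n ≤ i) (h' : ¬ i - n < l) : cat x z i = 0 := by
  simp [cat, ev, h', not_lt.mpr h]

lemma cat_add (j : Fin l) : cat x z (n + j) = z j := by
  have h : n + (j : ℕ) - n < l := by have := j.isLt; omega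
  rw [cat_mid x z (by omega) h]
  congr 1
  apply Fin.ext
  simp

end catLemmas

section formula

/-- an allocation of digits to variables -/
abbrev Al (m n : ℕ) : Type := Fin m → {L : List (Fin n) // L.length ≤ n}

instance alFinite (m n : ℕ) : Finite (Al m n) := by
  have : Finite {L : List (Fin n) // L.length ≤ n} := (List.finite_length_le (Fin n) n).to_subtype
  exact Pi.finite

noncomputable instance alFintype (m n : ℕ) : Fintype (Al m n) := Fintype.ofFinite _

/-- the substitution belonging to an allocation -/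
def sig {s l n : ℕ} (g : Al (s + 1 + l) n) : ℕ → Tm
  | 0 => .var 0
  | i + 1 => if h : i < s + 1 + l then hor (g ⟨i, h⟩).1 else .zero

/-- the list of the first `s+1` variables plus one -/
def xl {s l n : ℕ} (g : Al (s + 1 + l) n) : List Tm :=
  List.ofFn fun i : Fin (s + 1) => .add (hor (g (Fin.castAdd l i)).1) .one

/-- the formula belonging to an allocation -/
def fml {s l n : ℕ} (θ : Opn) (g : Al (s + 1 + l) n) : Opn :=
  .and (.eq (kpT (xl g)).1 (.var 1)) (.and (.eq (kpT (xl g)).2 (.var 2)) (θ.subst (sig g)))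

/-- the disjunction over all allocations -/
noncomputable def big (s l n : ℕ) (θ : Opn) : Opn :=
  Opn.any ((Finset.univ : Finset (Al (s + 1 + l) n)).toList.map (fml θ))

lemma big_eval {R : Type} [CommRing R] [LinearOrder R] (s l n : ℕ) (θ : Opn) (v : ℕ → R) :
    (big s l n θ).eval v ↔ ∃ g : Al (s + 1 + l) n, (fml θ g).eval v := by
  simp [big, Opn.eval_any]

variable {R : Type} [CommRing R] {s l n : ℕ} (g : Al (s + 1 + l) n) (v : ℕ → R)
  (x : Fin (s + 1) → R) (z : Fin l → R)

lemma sig_eval (hx : ∀ i : Fin (s + 1), (hor (g (Fin.castAdd l i)).1).eval v = x i)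
    (hz : ∀ i : Fin l, (hor (g (Fin.natAdd (s + 1) i)).1).eval v = z i) :
    (fun i => (sig g i).eval v) = push (v 0) (cat x z) := by
  funext i
  cases i with
  | zero => rfl
  | succ i =>
    show (sig g (i + 1)).eval v = cat x z i
    by_cases h1 : i < s + 1
    · have h2 : i < s + 1 + l := by omega
      rw [cat_lt x z h1, ← hx ⟨i, h1⟩]
      simp [sig, h2]
    · by_cases h2 : i - (s + 1) < l
      · have h3 : i < s + 1 + l := by omega
        rw [cat_mid x z (by omega) h2, ← hz ⟨i - (s + 1), h2⟩]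
        have h4 : (⟨i, h3⟩ : Fin (s + 1 + l)) = Fin.natAdd (s + 1) ⟨i - (s + 1), h2⟩ := by
          apply Fin.ext
          simp
          omega
        simp [sig, h3, h4]
      · have h3 : ¬ i < s + 1 + l := by omega
        rw [cat_ge x z (by omega) h2]
        simp [sig, h3]

lemma xl_eval (hx : ∀ i : Fin (s + 1), (hor (g (Fin.castAdd l i)).1).eval v = x i) :
    ((kpT (xl g)).1.eval v, (kpT (xl g)).2.eval v) = kpx x := by
  rw [← kpT_eval, kpx, xl, List.map_ofFn]
  congr 2
  funext i
  simp [hx i]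

end formula

section numbers

variable {R : Type} [CommRing R] [LinearOrder R] [IsStrictOrderedRing R]

lemma le_prod_of_mem {ι : Type} [Fintype ι] [DecidableEq ι] (w : ι → R) (hw : ∀ i, 0 ≤ w i)
    (i : ι) : w i + 1 ≤ ∏ j, (w j + 1) := by
  rw [← Finset.mul_prod_erase Finset.univ (fun j => w j + 1) (Finset.mem_univ i)]
  have h1 : (1 : R) ≤ ∏ j ∈ Finset.univ.erase i, (w j + 1) := by
    calc (1 : R) = ∏ j ∈ Finset.univ.erase i, (1 : R) := by simp
      _ ≤ _ := Finset.prod_le_prod (fun _ _ => zero_le_one) (fun j _ => by linarith [hw j])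
  have h2 := hw i
  nlinarith

/-- choice of the numbers of digits -/
lemma counts {m : ℕ} (w : Fin m → R) (hw : ∀ i, 0 ≤ w i) {b : R} (hb : 2 ≤ b) (K : ℕ)
    (hK : ∏ i, (w i + 1) ≤ b ^ K) :
    ∃ N : Fin m → ℕ, (∀ i, w i < b ^ N i) ∧ ∑ i, N i ≤ m + K := by
  classical
  have hex : ∀ i, ∃ N : ℕ, w i < b ^ N := by
    intro i
    refine ⟨K, ?_⟩
    have := le_prod_of_mem w hw i
    linarith
  refine ⟨fun i => Nat.find (hex i), fun i => Nat.find_spec (hex i), ?_⟩
  have hone : ∀ i, b ^ Nat.find (hex i) ≤ b * (w i + 1) := by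
    intro i
    rcases Nat.eq_zero_or_pos (Nat.find (hex i)) with h0 | hpos
    · rw [h0, pow_zero]
      have := hw i
      nlinarith
    · obtain ⟨k, hk⟩ := Nat.exists_eq_succ_of_ne_zero hpos.ne'
      have hnot := Nat.find_min (hex i) (m := k) (by omega)
      push Not at hnot
      rw [hk, Nat.succ_eq_add_one, pow_succ]
      nlinarith [hw i]
  have hprod : b ^ (∑ i, Nat.find (hex i)) ≤ b ^ (m + K) := by
    calc b ^ (∑ i, Nat.find (hex i)) = ∏ i, b ^ Nat.find (hex i) := by
          rw [Finset.prod_pow_eq_pow_sum]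
      _ ≤ ∏ i, (b * (w i + 1)) :=
          Finset.prod_le_prod (fun i _ => pow_nonneg (by linarith) _) (fun i _ => hone i)
      _ = b ^ m * ∏ i, (w i + 1) := by
          rw [Finset.prod_mul_distrib]; simp
      _ ≤ b ^ m * b ^ K := mul_le_mul_of_nonneg_left hK (pow_nonneg (by linarith) _)
      _ = b ^ (m + K) := by rw [pow_add]
  exact (pow_le_pow_iff_right₀ (by linarith : (1 : R) < b)).1 hprod

end numbers

theorem stmt_PACK (hCRT : Stmt_CRT) (hROOT : Stmt_ROOT) (hDIV : Stmt_DIV) (hKIN : Stmt_KIN) :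
    Stmt_PACK := by
  classical
  intro e s l θ
  set κ : ℕ := s + l + 2 with hκ
  set n : ℕ := (4 * e + 1) * κ with hn
  obtain ⟨C, hC⟩ := hCRT n
  refine ⟨n, big s l n θ, C + 2 ^ κ, ?_⟩
  intro R _ _ _ hR
  refine ⟨?_, ?_⟩
  · intro t y x z ht hy hx hz hpx hpz hθ
    have ht' : (C : R) + 2 ^ κ ≤ t := by
      have : ((C + 2 ^ κ : ℕ) : R) = (C : R) + 2 ^ κ := by push_cast; ring
      rw [← this]; exact ht
    have hC0 : (0 : R) ≤ C := Nat.cast_nonneg C
    have h2k : (1 : R) ≤ 2 ^ κ := one_le_pow₀ (by norm_num)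
    have h2t : (2 : R) ^ κ ≤ t := by linarith
    have hCt : (C : R) ≤ t := by linarith
    have ht1 : 1 ≤ t := by linarith
    obtain ⟨b, hb1, hbk, htb⟩ := hROOT R hR κ t (by omega) ht1
    have hb2 : 2 ≤ b := by
      by_contra hcon
      push Not at hcon
      have h1 : (1 : R) ≤ 2 - b := hR.disc _ (by linarith)
      have h2 : (b + 1) ^ κ ≤ 2 ^ κ := pow_le_pow_left₀ (by linarith) (by linarith) _
      linarith
    have hbb : b + 1 ≤ b ^ 2 := by nlinarith
    have htb2 : t ≤ b ^ (2 * κ) := by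
      rw [pow_mul]
      exact htb.le.trans (pow_le_pow_left₀ (by linarith) hbb _)
    have hbt : b ≤ t := by
      calc b = b ^ 1 := (pow_one b).symm
        _ ≤ b ^ κ := pow_le_pow_right₀ hb1 (by omega)
        _ ≤ t := hbk
    -- the tuple of all variables
    set w : Fin (s + 1 + l) → R := Fin.append x z with hwdef
    have hw0 : ∀ i, 0 ≤ w i := by
      intro i
      refine Fin.addCases ?_ ?_ i
      · intro i; simp [hwdef, hx i]
      · intro i; simp [hwdef, hz i]
    have hprodw : ∏ i, (w i + 1) ≤ b ^ (4 * e * κ) := by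
      rw [Fin.prod_univ_add]
      simp only [hwdef, Fin.append_left, Fin.append_right]
      have h0 : (0 : R) ≤ ∏ i, (z i + 1) := Finset.prod_nonneg (fun i _ => by linarith [hz i])
      have h1 : (0 : R) ≤ t ^ e := pow_nonneg (by linarith) _
      calc (∏ i, (x i + 1)) * ∏ i, (z i + 1) ≤ t ^ e * t ^ e := mul_le_mul hpx hpz h0 h1
        _ = t ^ (2 * e) := by rw [← pow_add]; congr 1; ring
        _ ≤ (b ^ (2 * κ)) ^ (2 * e) := pow_le_pow_left₀ (by linarith) htb2 _
        _ = b ^ (4 * e * κ) := by rw [← pow_mul]; congr 1; ring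
    obtain ⟨N, hN, hNs⟩ := counts w hw0 hb2 (4 * e * κ) hprodw
    have hNn : ∑ i, N i ≤ n := by
      have : n = 4 * e * κ + κ := by rw [hn]; ring
      omega
    have hdig : ∀ i, ∃ f : Fin (N i) → R, (∀ k, 0 ≤ f k ∧ f k < b) ∧
        hval b (List.ofFn f) = w i := fun i => digits hDIV hR hb1 (N i) (w i) (hw0 i) (hN i)
    choose dig hd1 hd2 using hdig
    obtain ⟨ι⟩ : Nonempty ((Σ i, Fin (N i)) ↪ Fin n) := by
      apply Function.Embedding.nonempty_of_card_le
      simpa using hNn
    set a : Fin n → R := Function.extend ι (fun p => dig p.1 p.2) (fun _ => 0) with ha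
    have haι : ∀ p, a (ι p) = dig p.1 p.2 := fun p => ι.injective.extend_apply _ _ p
    have hab : ∀ j, 0 ≤ a j ∧ a j < b := by
      intro j
      by_cases h : ∃ p, ι p = j
      · obtain ⟨p, rfl⟩ := h
        rw [haι]; exact hd1 _ _
      · rw [ha, Function.extend_apply' _ _ _ h]
        exact ⟨le_refl _, by linarith⟩
    obtain ⟨c, d, hc0, hd0, hcC, hdC, hBt⟩ := hC R hR b a hb1 hab
    have hlen : ∀ i, (List.ofFn fun k : Fin (N i) => ι ⟨i, k⟩).length ≤ n := by
      intro i
      rw [List.length_ofFn]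
      exact (Finset.single_le_sum (f := N) (fun _ _ => Nat.zero_le _) (Finset.mem_univ i)).trans hNn
    refine ⟨b, c, d, by linarith, hbt, hc0, ?_, hd0, ?_, a, fun j => ⟨(hab j).1, hBt j⟩, ?_⟩
    · calc c ≤ (C : R) * b ^ n := hcC
        _ = (C : R) * (b ^ κ) ^ (4 * e + 1) := by rw [← pow_mul, hn, mul_comm κ]
        _ ≤ t * t ^ (4 * e + 1) := mul_le_mul hCt
            (pow_le_pow_left₀ (pow_nonneg (by linarith) _) hbk _)
            (pow_nonneg (pow_nonneg (by linarith) _) _) (by linarith)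
        _ = t ^ (4 * e + 2) := by rw [← pow_succ']
    · calc d ≤ (C : R) * b := hdC
        _ ≤ t * t := mul_le_mul hCt hbt (by linarith) (by linarith)
        _ = t ^ 2 := (sq t).symm
        _ ≤ t ^ (4 * e + 2) := pow_le_pow_right₀ ht1 (by omega)
    · rw [big_eval]
      refine ⟨fun i => ⟨List.ofFn fun k : Fin (N i) => ι ⟨i, k⟩, hlen i⟩, ?_⟩
      set g : Al (s + 1 + l) n := fun i => ⟨List.ofFn fun k : Fin (N i) => ι ⟨i, k⟩, hlen i⟩ with hg
      set v : ℕ → R := cat ![y, (kpx x).1, (kpx x).2, b] a with hv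
      have hv3 : v 3 = b := by rw [hv, cat_lt _ _ (by norm_num)]; rfl
      have hv0 : v 0 = y := by rw [hv, cat_lt _ _ (by norm_num)]; rfl
      have hv1 : v 1 = (kpx x).1 := by rw [hv, cat_lt _ _ (by norm_num)]; rfl
      have hv2 : v 2 = (kpx x).2 := by rw [hv, cat_lt _ _ (by norm_num)]; rfl
      have hva : ∀ j : Fin n, v (4 + j) = a j := fun j => cat_add _ _ j
      have hall : ∀ i, (hor (g i).1).eval v = w i := by
        intro i
        rw [hor_eval v a hva, hv3, hg, List.map_ofFn, ← hd2 i]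
        congr 2
        funext k
        exact haι ⟨i, k⟩
      have hxe : ∀ i : Fin (s + 1), (hor (g (Fin.castAdd l i)).1).eval v = x i := by
        intro i; rw [hall]; simp [hwdef]
      have hze : ∀ i : Fin l, (hor (g (Fin.natAdd (s + 1) i)).1).eval v = z i := by
        intro i; rw [hall]; simp [hwdef]
      have hk := xl_eval g v x hxe
      refine ⟨?_, ?_, ?_⟩
      · rw [Opn.eval_eq, Tm.eval_var, hv1, ← hk]
      · rw [Opn.eval_eq, Tm.eval_var, hv2, ← hk]
      · rw [Opn.eval_subst, sig_eval g v x z hxe hze, hv0]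
        exact hθ
  · intro y b x a hy hb hx ha hφ
    rw [big_eval] at hφ
    obtain ⟨g, hg⟩ := hφ
    set v : ℕ → R := cat ![y, (kpx x).1, (kpx x).2, b] a with hv
    have hv3 : v 3 = b := by rw [hv, cat_lt _ _ (by norm_num)]; rfl
    have hv0 : v 0 = y := by rw [hv, cat_lt _ _ (by norm_num)]; rfl
    have hv1 : v 1 = (kpx x).1 := by rw [hv, cat_lt _ _ (by norm_num)]; rfl
    have hv2 : v 2 = (kpx x).2 := by rw [hv, cat_lt _ _ (by norm_num)]; rfl
    have hva : ∀ j : Fin n, v (4 + j) = a j := fun j => cat_add _ _ j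
    have hnn : ∀ i, 0 ≤ (hor (g i).1).eval v := by
      intro i
      rw [hor_eval v a hva, hv3]
      apply hval_nonneg hb
      intro r hr
      obtain ⟨j, -, rfl⟩ := List.mem_map.1 hr
      exact ha j
    obtain ⟨h1, h2, h3⟩ := hg
    rw [Opn.eval_eq, Tm.eval_var, hv1] at h1
    rw [Opn.eval_eq, Tm.eval_var, hv2] at h2
    have hk := xl_eval g v (fun i => (hor (g (Fin.castAdd l i)).1).eval v) (fun i => rfl)
    have hkk : kpx (fun i => (hor (g (Fin.castAdd l i)).1).eval v) = kpx x := by
      rw [← hk, h1, h2]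
    have hinj := hKIN R hR.disc _ _ (by simp) (by
      intro r hr
      obtain ⟨i, rfl⟩ := List.mem_ofFn.1 hr
      have := hnn (Fin.castAdd l i)
      linarith) (by
      intro r hr
      obtain ⟨i, rfl⟩ := List.mem_ofFn.1 hr
      have := hx i
      linarith) hkk
    have hxe : ∀ i : Fin (s + 1), (hor (g (Fin.castAdd l i)).1).eval v = x i := by
      intro i
      have := congrFun (List.ofFn_injective hinj) i
      simpa using this
    refine ⟨fun i => (hor (g (Fin.natAdd (s + 1) i)).1).eval v, fun i => hnn _, ?_⟩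
    rw [Opn.eval_subst, sig_eval g v x _ hxe (fun i => rfl), hv0] at h3
    exact h3

end Pool.SBM.helper23

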